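import Pool.Agent.Helper28.TL.StV

/-!
# Project TL, low levels, module UIq: twisted symbols invariant under the scaling by an odd number
-/

set_option autoImplicit false

namespace Pool.Agent.Helper72.TLV

open Pool.Agent.Helper28.TL Pool.Agent.Helper28.WK Pool.Agent.Helper28.LV Pool.Agent.Helper4.TL Pool.Agent.Helper14.CV
open Pool.Agent.Helper79.TL.UIpM (all_of_gens)

/-- A `u`-invariant twisted symbol is a twisted symbol for all of `SL₂(ℤ)`. -/
private theorem full {p : ℕ} (hp : 3 ≤ p) (hp2 : ¬ 2 ∣ p) {R : Type} [AddCommGroup R] {r s : ℕ}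
    {χ : ℤ → ℤ → R} (hχ : SymE p r s χ) (hu : EqC (act p 0 0 1 χ) χ) :
    EqC (act 1 1 0 1 χ) (-χ) ∧ EqC (act 1 0 1 1 χ) (-χ) := by
  have hp0 : (p : ℤ) ≠ 0 := by
    have : p ≠ 0 := by omega
    exact_mod_cast this
  have hodd : ∀ k : ℕ, ((p : ℤ) ^ k) % 2 = 1 := by
    intro k
    have h1 : Odd p := Nat.odd_iff.2 (by omega)
    have h2 : Odd ((p : ℤ) ^ k) := Odd.pow (by exact_mod_cast h1)
    exact Int.odd_iff.1 h2
  have detu : (p : ℤ) * 1 - 0 * 0 ≠ 0 := by simpa using hp0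
  have st1 : ∀ b : ℤ, EqC (act 1 (p * b) 0 1 χ) (-χ) → EqC (act 1 b 0 1 χ) (-χ) := by
    intro b hb
    have e1 : act 1 b 0 1 (act p 0 0 1 χ) = act p 0 0 1 (act 1 (p * b) 0 1 χ) := by
      rw [act_act, act_act]
      congr 1 <;> ring
    have h1 : EqC (act 1 b 0 1 χ) (act 1 b 0 1 (act p 0 0 1 χ)) := hu.symm.act (by norm_num)
    rw [e1] at h1
    have h2 : EqC (act p 0 0 1 (-χ)) (-χ) := hu.neg
    exact h1.trans ((hb.act detu).trans h2)
  have st2 : ∀ c : ℤ, EqC (act 1 0 (p * c) 1 χ) (-χ) → EqC (act 1 0 c 1 χ) (-χ) := by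
    intro c hc
    have e1 : act 1 0 (p * c) 1 (act p 0 0 1 χ) = act p 0 0 1 (act 1 0 c 1 χ) := by
      rw [act_act, act_act]
      congr 1 <;> ring
    have h1 : EqC (act p 0 0 1 (act 1 0 c 1 χ)) (act p 0 0 1 (-χ)) := by
      rw [← e1]
      exact (hu.act (by norm_num)).trans (hc.trans hu.symm.neg)
    obtain ⟨k, hk⟩ := h1
    have hF : Homog (act 1 0 c 1 χ) := hχ.1.act (by norm_num)
    refine ⟨k, fun x y hxy => ?_⟩
    have hxy' : x ≠ 0 ∨ (p : ℤ) * y ≠ 0 := by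
      rcases hxy with hx | hy
      · exact Or.inl hx
      · exact Or.inr (mul_ne_zero hp0 hy)
    have h2 := hk x (p * y) hxy'
    have e2 : act p 0 0 1 (act 1 0 c 1 χ) x (p * y) = act 1 0 c 1 χ x y := by
      rw [← hF p x y hp0 hxy]
      show act 1 0 c 1 χ (p * x + 0 * (p * y)) (0 * x + 1 * (p * y)) = _
      congr 1 <;> ring
    have e3 : act p 0 0 1 (-χ) x (p * y) = (-χ) x y := by
      show -(χ (p * x + 0 * (p * y)) (0 * x + 1 * (p * y))) = -(χ x y)
      rw [← hχ.1 p x y hp0 hxy]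
      congr 2 <;> ring
    rw [e2, e3] at h2
    exact h2
  constructor
  · have key : ∀ k : ℕ, EqC (act 1 ((p : ℤ) ^ k) 0 1 χ) (-χ) → EqC (act 1 1 0 1 χ) (-χ) := by
      intro k
      induction k with
      | zero => intro h; simpa using h
      | succ k ih =>
        intro h
        rw [pow_succ'] at h
        exact ih (st1 _ h)
    have h := hχ.2 1 ((p : ℤ) ^ r) 0 1 (by ring) (dvd_refl _) (dvd_zero _)
    have e : eps 1 ((p : ℤ) ^ r) 0 1 = -1 := by
      unfold eps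
      rw [if_pos]
      have := hodd r
      omega
    rw [e, neg_smul, one_smul] at h
    exact key r h
  · have key : ∀ k : ℕ, EqC (act 1 0 ((p : ℤ) ^ k) 1 χ) (-χ) → EqC (act 1 0 1 1 χ) (-χ) := by
      intro k
      induction k with
      | zero => intro h; simpa using h
      | succ k ih =>
        intro h
        rw [pow_succ'] at h
        exact ih (st2 _ h)
    have h := hχ.2 1 0 ((p : ℤ) ^ s) 1 (by ring) (dvd_zero _) (dvd_refl _)
    have e : eps 1 0 ((p : ℤ) ^ s) 1 = -1 := by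
      unfold eps
      rw [if_pos]
      have := hodd s
      omega
    rw [e, neg_smul, one_smul] at h
    exact key s h

/-- Module UIQ. -/
theorem hUIq : VUIq := by
  intro far p hp hp2 R _ r s χ hχ hu
  obtain ⟨hT, hL⟩ := full hp hp2 hχ hu
  have all := all_of_gens hT hL
  -- normalise: values at the three classes
  obtain ⟨ct, hct⟩ := hT
  obtain ⟨cl, hcl⟩ := hL
  have t1 := hct 1 0 (Or.inl one_ne_zero)
  have t2 := hct 0 1 (Or.inr one_ne_zero)
  have t3 := hct 1 1 (Or.inl one_ne_zero)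
  have l1 := hcl 1 0 (Or.inl one_ne_zero)
  have l2 := hcl 0 1 (Or.inr one_ne_zero)
  have l3 := hcl 1 1 (Or.inl one_ne_zero)
  simp only [act, Pi.neg_apply, mul_one, mul_zero, add_zero, zero_add] at t1 t2 t3 l1 l2 l3
  -- `3 (χ(0,1) - χ(1,0)) = 0`
  have h3 : (3 : ℤ) • χ 1 0 = (3 : ℤ) • χ 0 1 := by
    -- t1 : χ 1 0 = -χ 1 0 + ct ; t2 : χ 1 1 = -χ 0 1 + ct ; l1 : χ 1 1 = -χ 1 0 + cl ; l2 : χ 0 1 = -χ 0 1 + cl
    have e1 : -χ 0 1 + ct = -χ 1 0 + cl := t2.symm.trans l1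
    have e2 : ct = χ 1 0 + χ 1 0 := by rw [eq_comm, ← sub_eq_zero]; rw [← sub_eq_zero] at t1; rw [← t1]; abel
    have e3 : cl = χ 0 1 + χ 0 1 := by rw [eq_comm, ← sub_eq_zero]; rw [← sub_eq_zero] at l2; rw [← l2]; abel
    rw [e2, e3, ← sub_eq_zero] at e1
    rw [← sub_eq_zero, ← e1]
    abel
  refine far R _ ((3 : ℤ) • χ) (hχ.1.smul (3 : ℤ)) fun a b c d hd => ?_
  show (3 : ℤ) • χ a c = (3 : ℤ) • χ b d
  have h := (all a b c d hd).diff (p := 1) (q := 0) (p' := 0) (q' := 1)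
    (Or.inl one_ne_zero) (Or.inr one_ne_zero)
  have e1 : act a b c d χ 1 0 - act a b c d χ 0 1 = χ a c - χ b d := by
    simp [act]
  have e2 : (eps a b c d • χ) 1 0 - (eps a b c d • χ) 0 1 = eps a b c d • (χ 1 0 - χ 0 1) := by
    simp [smul_sub]
  rw [e1, e2] at h
  rw [← sub_eq_zero, ← smul_sub, h, smul_comm, smul_sub, h3, sub_self, smul_zero]

end Pool.Agent.Helper72.TLV
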